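import Pool.Agent.J6H78.PK.Free

set_option autoImplicit false

/-! # Asymptotics of the mean number of visits on the free group -/

namespace Pool.Agent.J6H78.PK

open Pool.Agent.TH996.Parking Pool.Agent.TH996.Park MeasureTheory Filter Topology Finset
open scoped ENNReal

theorem visits_le {p : ℝ} (h0 : 0 ≤ p) (h1 : p < 1 / 2) (x : F2) :
    expectedVisits cayley ker p x ≤ ENNReal.ofReal (2 - Real.log (1 - 2 * p)) :=
  expectedVisits_le cayley ker Lft isKernel isAut isTransitive isUnimodular ⟨h0, by linarith⟩ x _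
    fun T => mT_upper (S := tri) treeLike ⟨h0, by linarith⟩ h1 x T

theorem mT_le_visits {p : ℝ} (h0 : 0 ≤ p) (h1 : p < 1 / 2) (x : F2) (T : ℕ) :
    mT tri p 0 x T ≤ (expectedVisits cayley ker p x).toReal := by
  have hp : 0 ≤ p ∧ p ≤ 1 := ⟨h0, by linarith⟩
  have e := expectedVisits_eq cayley ker Lft isKernel isAut isTransitive isUnimodular hp x
  have hfin : expectedVisits cayley ker p x ≠ ∞ :=
    ((visits_le h0 h1 x).trans_lt ENNReal.ofReal_lt_top).ne
  rw [← ENNReal.ofReal_le_iff_le_toReal hfin, e]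
  unfold mT
  rw [ENNReal.ofReal_sum_of_nonneg fun t _ => aT_nonneg tri x t]
  exact ENNReal.sum_le_tsum _

theorem visits_lower {p : ℝ} (h0 : 0 ≤ p) (h1 : p < 1 / 2) (x : F2) (k : ℕ) (hk : 1 ≤ k) :
    Real.log (1 / (1 / 2 - p)) - (2 + 2 * k) * Real.log 2 ≤
      (1 + 2 * (1 / 2) ^ k) * (expectedVisits cayley ker p x).toReal := by
  have hp : 0 ≤ p ∧ p ≤ 1 := ⟨h0, by linarith⟩
  have h := lower (S := tri) treeLike hp x k hk (mT_le_visits h0 h1 x)
  set M := (expectedVisits cayley ker p x).toReal with hM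
  set d := (1 / 2 : ℝ) ^ k with hd
  have h2 : (1 / 2 : ℝ) * ((1 / 4) ^ k * Real.exp (-((1 + 2 * d) * M))) ≤ 1 - 2 * p := by
    refine le_trans ?_ h
    exact mul_le_mul_of_nonneg_right (by linarith) (by positivity)
  have h3 := Real.log_le_log (by positivity) h2
  rw [Real.log_mul (by norm_num) (by positivity), Real.log_mul (by positivity) (by positivity),
    Real.log_exp, Real.log_pow] at h3
  have e1 : Real.log (1 / 2) = -Real.log 2 := by rw [one_div, Real.log_inv]
  have e2 : Real.log (1 / 4) = -(2 * Real.log 2) := by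
    rw [one_div, Real.log_inv, show (4 : ℝ) = 2 ^ 2 by norm_num, Real.log_pow]
    norm_num
  have e3 : Real.log (1 - 2 * p) = Real.log 2 + Real.log (1 / 2 - p) := by
    rw [← Real.log_mul (by norm_num) (by linarith)]
    congr 1
    ring
  have e4 : Real.log (1 / (1 / 2 - p)) = -Real.log (1 / 2 - p) := by rw [one_div, Real.log_inv]
  rw [e1, e2, e3] at h3
  rw [e4]
  nlinarith

theorem visits_upper {p : ℝ} (h0 : 0 ≤ p) (h1 : p < 1 / 2) (x : F2) :
    (expectedVisits cayley ker p x).toReal ≤ 2 + Real.log (1 / (1 / 2 - p)) := by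
  have hlog2 : 0 < Real.log 2 := Real.log_pos (by norm_num)
  have e3 : Real.log (1 - 2 * p) = Real.log 2 + Real.log (1 / 2 - p) := by
    rw [← Real.log_mul (by norm_num) (by linarith)]
    congr 1
    ring
  have e4 : Real.log (1 / (1 / 2 - p)) = -Real.log (1 / 2 - p) := by rw [one_div, Real.log_inv]
  have h : (0 : ℝ) ≤ 2 - Real.log (1 - 2 * p) := by
    have := Real.log_nonpos (x := 1 - 2 * p) (by linarith) (by linarith)
    linarith
  have h2 := ENNReal.toReal_mono ENNReal.ofReal_ne_top (visits_le h0 h1 x)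
  rw [ENNReal.toReal_ofReal h] at h2
  rw [e4]
  linarith

theorem tendsto_sub_half : Tendsto (fun p : ℝ => 1 / 2 - p) (𝓝[<] (1 / 2)) (𝓝[>] 0) := by
  refine tendsto_nhdsWithin_iff.2 ⟨?_, ?_⟩
  · have : Tendsto (fun p : ℝ => 1 / 2 - p) (𝓝 (1 / 2)) (𝓝 (1 / 2 - 1 / 2)) :=
      tendsto_const_nhds.sub tendsto_id
    rw [sub_self] at this
    exact this.mono_left nhdsWithin_le_nhds
  · filter_upwards [self_mem_nhdsWithin] with p hp
    exact sub_pos.2 (Set.mem_Iio.1 hp)

theorem tendsto_log_half : Tendsto (fun p : ℝ => Real.log (1 / (1 / 2 - p))) (𝓝[<] (1 / 2)) atTop := by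
  have h : Tendsto (fun p : ℝ => (1 / 2 - p)⁻¹) (𝓝[<] (1 / 2)) atTop :=
    tendsto_inv_nhdsGT_zero.comp tendsto_sub_half
  have h2 := Real.tendsto_log_atTop.comp h
  refine h2.congr fun p => ?_
  rw [Function.comp_apply, one_div (1 / 2 - p)]

theorem eventually_range : ∀ᶠ p : ℝ in 𝓝[<] (1 / 2), 0 ≤ p ∧ p < 1 / 2 := by
  have h1 : ∀ᶠ p : ℝ in 𝓝[<] (1 / 2), 0 < p :=
    nhdsWithin_le_nhds (lt_mem_nhds (by norm_num : (0 : ℝ) < 1 / 2))
  filter_upwards [h1, self_mem_nhdsWithin] with p h2 h3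
  exact ⟨h2.le, h3⟩

/-- the exact order: the mean number of visits is asymptotic to `log (1 / (1 / 2 - p))` -/
theorem tendsto_ratio (x : F2) :
    Tendsto (fun p : ℝ => (expectedVisits cayley ker p x).toReal / Real.log (1 / (1 / 2 - p)))
      (𝓝[<] (1 / 2)) (𝓝 1) := by
  have hl := tendsto_log_half
  refine tendsto_order.2 ⟨fun a ha => ?_, fun a ha => ?_⟩
  · obtain ⟨k, hk1, hk⟩ : ∃ k : ℕ, 1 ≤ k ∧ a * (1 + 2 * (1 / 2 : ℝ) ^ k) < 1 := by
      have ht : Tendsto (fun k : ℕ => a * (1 + 2 * (1 / 2 : ℝ) ^ k)) atTop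
          (𝓝 (a * (1 + 2 * 0))) :=
        (((tendsto_pow_atTop_nhds_zero_of_lt_one (by norm_num) (by norm_num)).const_mul
          (2 : ℝ)).const_add 1).const_mul a
      have h2 : a * (1 + 2 * 0) < 1 := by linarith
      obtain ⟨k, h3, h4⟩ := ((eventually_ge_atTop 1).and (ht.eventually_lt_const h2)).exists
      exact ⟨k, h3, h4⟩
    set c := 1 + 2 * (1 / 2 : ℝ) ^ k with hc
    have hc0 : 0 < c := by positivity
    have hpos : 0 < 1 - a * c := by linarith
    filter_upwards [eventually_range, hl.eventually_gt_atTop 0,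
      hl.eventually_gt_atTop ((2 + 2 * k) * Real.log 2 / (1 - a * c))] with p hp h1 h2
    have h3 := visits_lower hp.1 hp.2 x k hk1
    rw [← hc] at h3
    rw [div_lt_iff₀ hpos] at h2
    rw [lt_div_iff₀ h1]
    have h4 : c * (a * Real.log (1 / (1 / 2 - p))) <
        c * (expectedVisits cayley ker p x).toReal := by
      nlinarith
    exact lt_of_mul_lt_mul_left h4 hc0.le
  · have hpos : 0 < a - 1 := by linarith
    filter_upwards [eventually_range, hl.eventually_gt_atTop 0,
      hl.eventually_gt_atTop (2 / (a - 1))] with p hp h1 h2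
    have h3 := visits_upper hp.1 hp.2 x
    rw [div_lt_iff₀ hpos] at h2
    rw [div_lt_iff₀ h1]
    linarith

/-- no power of `1 / 2 - p` compensates -/
theorem tendsto_zero (x : F2) {γ : ℝ} (hγ : 0 < γ) :
    Tendsto (fun p : ℝ => (expectedVisits cayley ker p x).toReal * (1 / 2 - p) ^ γ)
      (𝓝[<] (1 / 2)) (𝓝 0) := by
  have h1 : Tendsto (fun d : ℝ => (2 - Real.log d) * d ^ γ) (𝓝[>] 0) (𝓝 (2 * 0 - 0)) := by
    have a1 := tendsto_log_mul_rpow_nhdsGT_zero hγ
    have a2 : Tendsto (fun d : ℝ => d ^ γ) (𝓝[>] 0) (𝓝 0) := by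
      have : Tendsto (fun d : ℝ => d ^ γ) (𝓝 0) (𝓝 ((0 : ℝ) ^ γ)) :=
        (Real.continuousAt_rpow_const 0 γ (Or.inr hγ.le)).tendsto
      rw [Real.zero_rpow hγ.ne'] at this
      exact this.mono_left nhdsWithin_le_nhds
    refine ((a2.const_mul 2).sub a1).congr fun d => ?_
    ring
  rw [mul_zero, sub_zero] at h1
  have h2 := h1.comp tendsto_sub_half
  refine squeeze_zero' ?_ ?_ h2
  · filter_upwards [eventually_range] with p hp
    exact mul_nonneg ENNReal.toReal_nonneg (Real.rpow_nonneg (by linarith [hp.2]) _)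
  · filter_upwards [eventually_range] with p hp
    have h3 := visits_upper hp.1 hp.2 x
    rw [one_div (1 / 2 - p), Real.log_inv] at h3
    have h4 : (expectedVisits cayley ker p x).toReal ≤ 2 - Real.log (1 / 2 - p) := by linarith
    exact mul_le_mul_of_nonneg_right h4 (Real.rpow_nonneg (by linarith [hp.2]) _)

end Pool.Agent.J6H78.PK
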