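import Pool.Agent.J6H78.PK.Rec

set_option autoImplicit false
set_option linter.unusedSectionVars false

/-! # Upper and lower bounds for the mean number of visits -/

namespace Pool.Agent.J6H78.PK

open MeasureTheory Measure Finset
open Pool.Agent.TH996.Park

variable {V : Type*} [DecidableEq V]
variable [MeasurableSpace V] [MeasurableSingletonClass V] [Countable V]
variable {S : Tri V} {pd : V → Finset V} (h : TreeLike S pd) {p : ℝ} (hp : 0 ≤ p ∧ p ≤ 1)

include hp in
theorem fT_eq' (x : V) (T : ℕ) : fT S p 0 x T = (1 - 2 * p) + aT S p 0 x T := by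
  have := balance S hp (κ := 0) ⟨le_rfl, zero_le_one⟩ x T
  linarith

theorem fT_nonneg (x : V) (T : ℕ) : 0 ≤ fT S p 0 x T := integral_nonneg fun _ => Nat.cast_nonneg _

theorem mT_succ (x : V) (T : ℕ) : mT S p 0 x (T + 1) = mT S p 0 x T + aT S p 0 x T := by
  unfold mT
  rw [sum_range_succ]

include h hp in
/-- the generating function is at most that of a Poisson variable, up to a constant factor -/
theorem LL_upper (x : V) (T : ℕ) : ∀ ε : ℝ, 0 ≤ ε → ε ≤ 1 →
    LL S p x T (1 - ε) ≤ Real.exp (-(ε * mT S p 0 x T) + 2 * ε ^ 2) := by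
  induction T with
  | zero =>
    intro ε h0 h1
    refine (LL_le_one hp x 0 (by linarith) (by linarith)).trans ?_
    have : mT S p 0 x 0 = 0 := by simp [mT]
    rw [this, mul_zero, neg_zero, zero_add]
    exact Real.one_le_exp (by positivity)
  | succ T ih =>
    intro ε h0 h1
    obtain ⟨η, hη⟩ : ∃ η, η = ε / 2 := ⟨_, rfl⟩
    have hε : ε = 2 * η := by rw [hη]; ring
    have hη0 : 0 ≤ η := by rw [hη]; linarith
    have hη1 : η ≤ 1 / 2 := by rw [hη]; linarith
    set r : ℝ := 1 - η with hr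
    have hr0 : 0 < r := by linarith
    have hr1 : r ≤ 1 := by linarith
    have e1 := LL_RR h hp x (T + 1) (s := 1 - ε) (by linarith) (by linarith)
    have e2 : (1 + (1 - ε)) / 2 = r := by rw [hr, hη]; ring
    rw [e2] at e1
    have e3 := RR_LL h hp x T hr0 hr1
    have hL0 := LL_nonneg (S := S) (p := p) x T hr0.le
    have hL1 := LL_le_one hp (S := S) x T hr0.le hr1
    have hf := fT_nonneg (S := S) (p := p) x T
    have hinv : r⁻¹ ≤ 1 + η + 2 * η ^ 2 := by
      rw [inv_le_iff_one_le_mul₀ hr0, hr]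
      nlinarith [mul_nonneg hη0 hη0, mul_nonneg (mul_nonneg hη0 hη0) (by linarith : 0 ≤ 1 / 2 - η)]
    have hinv2 : 1 + η ≤ r⁻¹ := by
      rw [← one_div, le_div_iff₀ hr0, hr]
      nlinarith [mul_nonneg hη0 hη0]
    have hfac : RR S p x (T + 1) r ≤
        LL S p x T r * (1 - η * aT S p 0 x T + 2 * η ^ 2) := by
      rw [e3]
      have a1 : (p * r + (1 - p) * r⁻¹) * LL S p x T r ≤
          (1 + (1 - 2 * p) * η + 2 * η ^ 2) * LL S p x T r := by
        refine mul_le_mul_of_nonneg_right ?_ hL0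
        have : (1 - p) * r⁻¹ ≤ (1 - p) * (1 + η + 2 * η ^ 2) :=
          mul_le_mul_of_nonneg_left hinv (by linarith [hp.2])
        nlinarith [mul_nonneg hp.1 (mul_nonneg hη0 hη0)]
      have a2 : η * fT S p 0 x T * LL S p x T r ≤ (r⁻¹ - 1) * fT S p 0 x T := by
        have b1 : η * fT S p 0 x T * LL S p x T r ≤ η * fT S p 0 x T :=
          mul_le_of_le_one_right (mul_nonneg hη0 hf) hL1
        have b2 : η * fT S p 0 x T ≤ (r⁻¹ - 1) * fT S p 0 x T :=
          mul_le_mul_of_nonneg_right (by linarith) hf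
        linarith
      have a3 := fT_eq' hp (S := S) x T
      have a4 : LL S p x T r * (1 - η * aT S p 0 x T + 2 * η ^ 2) =
          (1 + (1 - 2 * p) * η + 2 * η ^ 2) * LL S p x T r - η * fT S p 0 x T * LL S p x T r := by
        rw [a3]; ring
      rw [a4]
      linarith
    have hexp : 1 - η * aT S p 0 x T + 2 * η ^ 2 ≤ Real.exp (-(η * aT S p 0 x T) + 2 * η ^ 2) := by
      have := Real.add_one_le_exp (-(η * aT S p 0 x T) + 2 * η ^ 2)
      linarith
    have hih := ih η hη0 (by linarith)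
    have hR : RR S p x (T + 1) r ≤ Real.exp (-(η * mT S p 0 x (T + 1)) + 4 * η ^ 2) := by
      calc _ ≤ LL S p x T r * (1 - η * aT S p 0 x T + 2 * η ^ 2) := hfac
        _ ≤ LL S p x T r * Real.exp (-(η * aT S p 0 x T) + 2 * η ^ 2) :=
            mul_le_mul_of_nonneg_left hexp hL0
        _ ≤ Real.exp (-(η * mT S p 0 x T) + 2 * η ^ 2) *
            Real.exp (-(η * aT S p 0 x T) + 2 * η ^ 2) :=
            mul_le_mul_of_nonneg_right hih (Real.exp_pos _).le
        _ = _ := by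
            rw [← Real.exp_add, mT_succ]
            congr 1
            ring
    rw [e1]
    calc RR S p x (T + 1) r ^ 2 ≤ Real.exp (-(η * mT S p 0 x (T + 1)) + 4 * η ^ 2) ^ 2 :=
          pow_le_pow_left₀ (RR_nonneg x (T + 1) hr0.le) hR 2
      _ = _ := by
          rw [← Real.exp_nat_mul, hε]
          congr 1
          push_cast
          ring

include h hp in
/-- the upper bound -/
theorem mT_upper (hp2 : p < 1 / 2) (x : V) (T : ℕ) :
    mT S p 0 x T ≤ 2 - Real.log (1 - 2 * p) := by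
  have h1 := LL_upper h hp x T 1 zero_le_one le_rfl
  have h2 := fT_eq h hp x T
  have h3 := fT_eq' hp (S := S) x T
  have h4 := aT_nonneg S (p := p) (κ := 0) x T
  have h5 := LL_nonneg (S := S) (p := p) x T le_rfl
  have e : (1 : ℝ) - 1 = 0 := by norm_num
  rw [e] at h1
  have h6 : 1 - 2 * p ≤ Real.exp (-(1 * mT S p 0 x T) + 2 * 1 ^ 2) := by
    have : (1 - p) * LL S p x T 0 ≤ LL S p x T 0 := by nlinarith [hp.1]
    linarith
  have h7 := Real.log_le_log (by linarith) h6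
  rw [Real.log_exp] at h7
  linarith

/-! ### Lower bound -/

include hp in
theorem integral_Nv (x : V) (T : ℕ) : ∫ ω, (Nv S.nb T x ω : ℝ) ∂(S.law p 0) = mT S p 0 x T := by
  have hκ : (0 : ℝ) ≤ 0 ∧ (0 : ℝ) ≤ 1 := ⟨le_rfl, zero_le_one⟩
  have := law_prob S hp hκ
  unfold Nv
  push_cast
  rw [integral_finsetSum _ fun t _ => (bm_A S.nb t x).integrable _]
  simp_rw [integral_A S hp hκ]
  simp [mT]

theorem bm_Nv (x : V) (T : ℕ) : BM fun ω => (Nv S.nb T x ω : ℝ) := by
  unfold Nv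
  push_cast
  exact BM.sum _ fun t _ => bm_A S.nb t x

include hp in
/-- Jensen's inequality -/
theorem LL_lower (x : V) (T : ℕ) {r : ℝ} (h0 : 0 < r) (h1 : r ≤ 1) :
    Real.exp (Real.log r * mT S p 0 x T) ≤ LL S p x T r := by
  have hκ : (0 : ℝ) ≤ 0 ∧ (0 : ℝ) ≤ 1 := ⟨le_rfl, zero_le_one⟩
  have := law_prob S hp hκ
  set c := Real.log r * mT S p 0 x T with hc
  have hb := bm_Nv (S := S) x T
  have e1 : ∀ ω : Om V, Real.exp c * (1 + (Real.log r * (Nv S.nb T x ω : ℝ) - c)) ≤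
      r ^ Nv S.nb T x ω := by
    intro ω
    have e2 : r ^ Nv S.nb T x ω = Real.exp c * Real.exp (Real.log r * (Nv S.nb T x ω : ℝ) - c) := by
      rw [← Real.exp_add]
      have : c + (Real.log r * (Nv S.nb T x ω : ℝ) - c) = Nv S.nb T x ω * Real.log r := by ring
      rw [this, Real.exp_nat_mul, Real.exp_log h0]
    rw [e2]
    refine mul_le_mul_of_nonneg_left ?_ (Real.exp_pos _).le
    have := Real.add_one_le_exp (Real.log r * (Nv S.nb T x ω : ℝ) - c)
    linarith
  have hb2 : BM fun ω : Om V => 1 + (Real.log r * (Nv S.nb T x ω : ℝ) - c) :=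
    (BM.const 1).add ((hb.smul _).sub (BM.const c))
  have e3 : ∫ ω, Real.exp c * (1 + (Real.log r * (Nv S.nb T x ω : ℝ) - c)) ∂(S.law p 0) =
      Real.exp c := by
    rw [integral_const_mul, integral_add (integrable_const _)
      (((hb.smul _).sub (BM.const c)).integrable _),
      integral_sub ((hb.smul _).integrable _) (integrable_const _), integral_const_mul,
      integral_Nv hp, integral_const, integral_const, hc]
    simp
  rw [← e3]
  exact integral_mono ((hb2.smul _).integrable _)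
    ((bm_pow h0.le h1 (measurable_Nv S.nb T x)).integrable _) e1

include hp in
theorem RR_lower (x : V) (T : ℕ) {r : ℝ} (h0 : 0 ≤ r) (h1 : r ≤ 1) :
    r * LL S p x T r ≤ RR S p x (T + 1) r := by
  have hκ : (0 : ℝ) ≤ 0 ∧ (0 : ℝ) ≤ 1 := ⟨le_rfl, zero_le_one⟩
  have := law_prob S hp hκ
  unfold LL RR
  rw [← integral_const_mul]
  refine integral_mono (((bm_pow h0 h1 (measurable_Nv S.nb T x)).smul _).integrable _)
    ((bm_pow h0 h1 (measurable_Dp S.nb (T + 1) x)).integrable _) fun ω => ?_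
  have hle : Dp S.nb (T + 1) x ω ≤ Nv S.nb T x ω + 1 := by
    rcases dep_cases S.nb T x ω with ⟨_, _, h3⟩ | ⟨_, _, h3⟩ | ⟨_, _, h3, h4⟩ <;> omega
  calc r * r ^ Nv S.nb T x ω = r ^ (Nv S.nb T x ω + 1) := by rw [pow_succ]; ring
    _ ≤ _ := pow_le_pow_of_le_one h0 h1 hle

theorem quarter (j : ℕ) : (1 / 4 : ℝ) ≤ (1 - (1 / 2) ^ (j + 1)) ^ (2 ^ (j + 1)) := by
  induction j with
  | zero => norm_num
  | succ j ih =>
    refine ih.trans ?_
    have e : (2 : ℕ) ^ (j + 1 + 1) = 2 * 2 ^ (j + 1) := by ring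
    rw [e, pow_mul (1 - (1 / 2 : ℝ) ^ (j + 1 + 1))]
    have h1 : (1 / 2 : ℝ) ^ (j + 1) ≤ 1 := pow_le_one₀ (by norm_num) (by norm_num)
    refine pow_le_pow_left₀ (by linarith) ?_ _
    have : (1 / 2 : ℝ) ^ (j + 1 + 1) = (1 / 2) ^ (j + 1) / 2 := by rw [pow_succ]; ring
    rw [this]
    nlinarith [sq_nonneg ((1 / 2 : ℝ) ^ (j + 1))]

include h hp in
theorem LL_iter (x : V) (k : ℕ) : ∀ T : ℕ,
    (1 / 4) ^ k * LL S p x T (1 - (1 / 2) ^ k) ^ (2 ^ k) ≤ LL S p x (T + k) 0 := by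
  induction k with
  | zero => intro T; simp
  | succ k ih =>
    intro T
    have h1 := ih (T + 1)
    have e1 : T + 1 + k = T + (k + 1) := by ring
    rw [e1] at h1
    refine le_trans ?_ h1
    have hk0 : (0 : ℝ) < (1 / 2) ^ k := by positivity
    have hk1 : (1 / 2 : ℝ) ^ k ≤ 1 := pow_le_one₀ (by norm_num) (by norm_num)
    set r : ℝ := 1 - (1 / 2) ^ (k + 1) with hr
    have hr' : (1 + (1 - (1 / 2 : ℝ) ^ k)) / 2 = r := by rw [hr, pow_succ]; ring
    have hr0 : 0 ≤ r := by rw [hr, pow_succ]; linarith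
    have hr1 : r ≤ 1 := by rw [hr, pow_succ]; linarith
    have h2 := LL_RR h hp x (T + 1) (s := 1 - (1 / 2) ^ k) (by linarith) (by linarith)
    rw [hr'] at h2
    have h3 := RR_lower hp (S := S) x T hr0 hr1
    have hL0 := LL_nonneg (S := S) (p := p) x T hr0
    have h4 : (r * LL S p x T r) ^ 2 ≤ LL S p x (T + 1) (1 - (1 / 2) ^ k) := by
      rw [h2]
      exact pow_le_pow_left₀ (mul_nonneg hr0 hL0) h3 2
    have h5 := quarter k
    rw [← hr] at h5
    calc (1 / 4 : ℝ) ^ (k + 1) * LL S p x T r ^ 2 ^ (k + 1)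
        = (1 / 4) ^ k * ((1 / 4) * LL S p x T r ^ 2 ^ (k + 1)) := by ring
      _ ≤ (1 / 4) ^ k * (r ^ 2 ^ (k + 1) * LL S p x T r ^ 2 ^ (k + 1)) := by
          refine mul_le_mul_of_nonneg_left ?_ (by positivity)
          exact mul_le_mul_of_nonneg_right h5 (pow_nonneg hL0 _)
      _ = (1 / 4) ^ k * ((r * LL S p x T r) ^ 2) ^ 2 ^ k := by
          rw [← mul_pow, ← pow_mul]
          congr 2
          ring
      _ ≤ _ := by
          refine mul_le_mul_of_nonneg_left ?_ (by positivity)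
          exact pow_le_pow_left₀ (by positivity) h4 _

include h hp in
/-- the lower bound for the mean number of free spots -/
theorem fT_lower (x : V) (k : ℕ) (hk : 1 ≤ k) (T : ℕ) {M : ℝ} (hM : mT S p 0 x T ≤ M) :
    (1 - p) * ((1 / 4) ^ k * Real.exp (-((1 + 2 * (1 / 2) ^ k) * M))) ≤ fT S p 0 x (T + k) := by
  have h1 := LL_iter h hp x k T
  rw [fT_eq h hp]
  refine mul_le_mul_of_nonneg_left (le_trans ?_ h1) (by linarith [hp.2])
  refine mul_le_mul_of_nonneg_left ?_ (by positivity)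
  have hk0 : (0 : ℝ) < (1 / 2) ^ k := by positivity
  have hk1 : (1 / 2 : ℝ) ^ k ≤ 1 / 2 := by
    have := pow_le_pow_of_le_one (a := (1 / 2 : ℝ)) (by norm_num) (by norm_num) hk
    simpa using this
  set d : ℝ := (1 / 2) ^ k with hd
  set r : ℝ := 1 - d with hr
  have hr0 : 0 < r := by linarith
  have hr1 : r ≤ 1 := by linarith
  have h2 := LL_lower hp (S := S) x T hr0 hr1
  have hm0 := mT_nonneg S (p := p) (κ := 0) x T
  have h3 : Real.exp (Real.log r * mT S p 0 x T) ^ 2 ^ k ≤ LL S p x T r ^ 2 ^ k :=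
    pow_le_pow_left₀ (Real.exp_pos _).le h2 _
  refine le_trans ?_ h3
  rw [← Real.exp_nat_mul]
  refine Real.exp_le_exp.2 ?_
  have h4 : 1 - r⁻¹ ≤ Real.log r := Real.one_sub_inv_le_log_of_pos hr0
  have h5 : r⁻¹ ≤ 1 + d + 2 * d ^ 2 := by
    rw [inv_le_iff_one_le_mul₀ hr0, hr]
    nlinarith [mul_nonneg hk0.le hk0.le, mul_nonneg (mul_nonneg hk0.le hk0.le)
      (by linarith : 0 ≤ 1 / 2 - d)]
  have h6 : ((2 ^ k : ℕ) : ℝ) * d = 1 := by
    rw [hd]; push_cast; rw [← mul_pow]; norm_num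
  have h7 : -(1 + 2 * d) ≤ ((2 ^ k : ℕ) : ℝ) * Real.log r := by
    have h8 : -(d + 2 * d ^ 2) ≤ Real.log r := by linarith
    have h9 : ((2 ^ k : ℕ) : ℝ) * (-(d + 2 * d ^ 2)) ≤ ((2 ^ k : ℕ) : ℝ) * Real.log r :=
      mul_le_mul_of_nonneg_left h8 (Nat.cast_nonneg _)
    have h10 : ((2 ^ k : ℕ) : ℝ) * (-(d + 2 * d ^ 2)) = -(((2 ^ k : ℕ) : ℝ) * d) * (1 + 2 * d) := by
      ring
    rw [h10, h6] at h9
    linarith
  have h11 : -((1 + 2 * d) * mT S p 0 x T) ≤ ((2 ^ k : ℕ) : ℝ) * (Real.log r * mT S p 0 x T) := by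
    have := mul_le_mul_of_nonneg_right h7 hm0
    linarith
  have h12 : (1 + 2 * d) * mT S p 0 x T ≤ (1 + 2 * d) * M :=
    mul_le_mul_of_nonneg_left hM (by linarith)
  linarith

include h hp in
/-- the lower bound -/
theorem lower (x : V) (k : ℕ) (hk : 1 ≤ k) {M : ℝ} (hM : ∀ T, mT S p 0 x T ≤ M) :
    (1 - p) * ((1 / 4) ^ k * Real.exp (-((1 + 2 * (1 / 2) ^ k) * M))) ≤ 1 - 2 * p := by
  have hs : Summable fun t => aT S p 0 x t :=
    summable_of_sum_range_le (fun t => aT_nonneg S x t) (c := M) hM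
  have hl := hs.tendsto_atTop_zero
  have hl2 : Filter.Tendsto (fun T => (1 - 2 * p) + aT S p 0 x (T + k)) Filter.atTop
      (nhds ((1 - 2 * p) + 0)) :=
    tendsto_const_nhds.add ((Filter.tendsto_add_atTop_iff_nat k).2 hl)
  rw [add_zero] at hl2
  refine ge_of_tendsto' hl2 fun T => ?_
  rw [← fT_eq' hp]
  exact fT_lower h hp x k hk T (hM T)

end Pool.Agent.J6H78.PK
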