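import Pool.Agent.TH996.Final

set_option autoImplicit false
set_option linter.unusedSectionVars false

/-! # Dependence of the parking process on the randomness of the ancestors, product formulas -/

namespace Pool.Agent.J6H78.PK

open MeasureTheory Measure Finset
open Pool.Agent.TH996.Park

variable {V : Type*} [DecidableEq V]

/-- the two outcomes agree on everything that is attached to the vertices in `U` -/
def Agree (U : Set V) (ω ω' : Om V) : Prop :=
  (∀ v ∈ U, ω.1 v = ω'.1 v) ∧ (∀ v ∈ U, ∀ t i, ω.2.1 (t, v, i) = ω'.2.1 (t, v, i)) ∧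
    (∀ v ∈ U, ∀ t i, ω.2.2 (t, v, i) = ω'.2.2 (t, v, i))

/-- `U` contains all predecessors of its elements -/
def Closed (nb : V → Finset V) (U : Set V) : Prop := ∀ x ∈ U, ∀ y ∈ nb x, y ∈ U

section congr

variable {nb : V → Finset V} {U : Set V} {ω ω' : Om V}

theorem arr_congr {ξ ξ' : ℕ × V × ℕ → V} {b b' : ℕ × V × ℕ → Bool} {c c' : V → ℕ} {t : ℕ} {x : V}
    (h1 : ∀ y ∈ nb x, ∀ i, ξ (t, y, i) = ξ' (t, y, i)) (h2 : ∀ y ∈ nb x, ∀ i, b (t, y, i) = b' (t, y, i))
    (h3 : ∀ y ∈ nb x, c y = c' y) : arr nb ξ b c t x = arr nb ξ' b' c' t x := by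
  unfold arr
  refine sum_congr rfl fun y hy => ?_
  rw [h3 y hy]
  congr 1
  ext i
  simp only [mem_filter]
  rw [h1 y hy, h2 y hy]

theorem CF_agree (hU : Closed nb U) (h : Agree U ω ω') (t : ℕ) :
    ∀ v ∈ U, Cn nb t v ω = Cn nb t v ω' ∧ Fn nb t v ω = Fn nb t v ω' := by
  induction t with
  | zero =>
    intro v hv
    unfold Cn Fn
    simp only [cs_zero, fr_zero, c0, f0]
    rw [h.1 v hv]
    exact ⟨rfl, rfl⟩
  | succ t ih =>
    intro v hv
    have hA : An nb t v ω = An nb t v ω' :=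
      arr_congr (fun y hy i => h.2.1 y (hU v hv y hy) t i) (fun y hy i => h.2.2 y (hU v hv y hy) t i)
        (fun y hy => (ih y (hU v hv y hy)).1)
    have hF := (ih v hv).2
    constructor
    · change An nb t v ω - Fn nb t v ω = An nb t v ω' - Fn nb t v ω'
      rw [hA, hF]
    · change Fn nb t v ω - An nb t v ω = Fn nb t v ω' - An nb t v ω'
      rw [hA, hF]

theorem A_agree (hU : Closed nb U) (h : Agree U ω ω') {x : V} (hx : ∀ y ∈ nb x, y ∈ U) (t : ℕ) :
    An nb t x ω = An nb t x ω' :=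
  arr_congr (fun y hy i => h.2.1 y (hx y hy) t i) (fun y hy i => h.2.2 y (hx y hy) t i)
    (fun y hy => (CF_agree hU h t y (hx y hy)).1)

theorem CF_agree' (hU : Closed nb U) (h : Agree U ω ω') {x : V} (hx : ∀ y ∈ nb x, y ∈ U)
    (he : ω.1 x = ω'.1 x) (t : ℕ) : Cn nb t x ω = Cn nb t x ω' ∧ Fn nb t x ω = Fn nb t x ω' := by
  induction t with
  | zero =>
    unfold Cn Fn
    simp only [cs_zero, fr_zero, c0, f0]
    rw [he]
    exact ⟨rfl, rfl⟩
  | succ t ih =>
    have hA := A_agree hU h hx t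
    constructor
    · change An nb t x ω - Fn nb t x ω = An nb t x ω' - Fn nb t x ω'
      rw [hA, ih.2]
    · change Fn nb t x ω - An nb t x ω = Fn nb t x ω' - An nb t x ω'
      rw [hA, ih.2]

end congr

/-! ### Strict ancestors -/

/-- the strict ancestors of `x` -/
def Anc (nb : V → Finset V) (x : V) : Set V := {v | Relation.TransGen (fun v w => v ∈ nb w) v x}

/-- the ancestors of `x`, with `x` -/
def AncE (nb : V → Finset V) (x : V) : Set V := {v | Relation.ReflTransGen (fun v w => v ∈ nb w) v x}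

theorem anc_closed (nb : V → Finset V) (x : V) : Closed nb (Anc nb x) :=
  fun _ hv _ hy => Relation.TransGen.head hy hv

theorem ancE_closed (nb : V → Finset V) (x : V) : Closed nb (AncE nb x) :=
  fun _ hv _ hy => Relation.ReflTransGen.head hy hv

theorem nb_anc (nb : V → Finset V) (x : V) : ∀ y ∈ nb x, y ∈ Anc nb x :=
  fun _ hy => Relation.TransGen.single hy

theorem self_ancE (nb : V → Finset V) (x : V) : x ∈ AncE nb x := Relation.ReflTransGen.refl

theorem anc_sub_ancE (nb : V → Finset V) (x : V) : Anc nb x ⊆ AncE nb x :=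
  fun _ h => h.to_reflTransGen

/-! ### Product formulas -/

section prodformula

variable {Ω X : Type*} [MeasurableSpace Ω] [MeasurableSpace X]

theorem BM.prod {ι : Type*} (A : Finset ι) {F : ι → Ω → ℝ} (h : ∀ i ∈ A, BM (F i)) :
    BM (fun ω => ∏ i ∈ A, F i ω) := by
  classical
  induction A using Finset.induction_on with
  | empty => simpa using BM.const (Ω := Ω) 1
  | insert a s ha ih =>
    simp only [Finset.prod_insert ha]
    exact (h a (by simp)).mul (ih fun i hi => h i (by simp [hi]))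

theorem prod_resamp {ι : Type*} [DecidableEq ι] (μ : Measure Ω) [IsProbabilityMeasure μ]
    (ν : ι → Measure X) [∀ i, IsProbabilityMeasure (ν i)] (u : ι → Ω → X → Ω)
    (hu : ∀ i, Resamp μ (ν i) (u i)) (J G : ι → Ω → ℝ) (g : ι → X → ℝ)
    (hJ : ∀ i, BM (J i)) (hG : ∀ i, BM (G i)) (A : Finset ι)
    (h1 : ∀ i ∈ A, ∀ j ∈ A, ∀ ω x, J i (u j ω x) = J i ω)
    (h2 : ∀ i ∈ A, ∀ j ∈ A, j ≠ i → ∀ ω x, G i (u j ω x) = G i ω)
    (h3 : ∀ i ∈ A, ∀ ω x, G i (u i ω x) = g i x) :
    ∀ R : Ω → ℝ, BM R → (∀ j ∈ A, ∀ ω x, R (u j ω x) = R ω) →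
      ∫ ω, R ω * ∏ i ∈ A, (1 + J i ω * (G i ω - 1)) ∂μ =
        ∫ ω, R ω * ∏ i ∈ A, (1 + J i ω * ((∫ x, g i x ∂(ν i)) - 1)) ∂μ := by
  induction A using Finset.induction_on with
  | empty => intro R _ _; simp
  | insert a A ha ih =>
    intro R hR hRu
    simp only [Finset.prod_insert ha]
    have hbf : BM fun ω => R ω * (1 + J a ω * (G a ω - 1)) :=
      hR.mul ((BM.const 1).add ((hJ a).mul ((hG a).sub (BM.const 1))))
    have e1 := ih (fun i hi j hj => h1 i (mem_insert_of_mem hi) j (mem_insert_of_mem hj))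
      (fun i hi j hj => h2 i (mem_insert_of_mem hi) j (mem_insert_of_mem hj))
      (fun i hi => h3 i (mem_insert_of_mem hi)) _ hbf (fun j hj ω x => by
        have hja : j ≠ a := fun e => ha (e ▸ hj)
        rw [hRu j (mem_insert_of_mem hj), h1 a (mem_insert_self _ _) j (mem_insert_of_mem hj),
          h2 a (mem_insert_self _ _) j (mem_insert_of_mem hj) hja])
    have e2 : ∀ ω, R ω * ((1 + J a ω * (G a ω - 1)) * ∏ i ∈ A, (1 + J i ω * (G i ω - 1))) =
        R ω * (1 + J a ω * (G a ω - 1)) * ∏ i ∈ A, (1 + J i ω * (G i ω - 1)) := fun ω => by ring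
    simp_rw [e2]
    rw [e1]
    set P : Ω → ℝ := fun ω => ∏ i ∈ A, (1 + J i ω * ((∫ x, g i x ∂(ν i)) - 1)) with hP
    have hPb : BM P := BM.prod A fun i _ => (BM.const 1).add ((hJ i).mul (BM.const _))
    have hPu : ∀ ω x, P (u a ω x) = P ω := by
      intro ω x
      simp only [hP]
      refine Finset.prod_congr rfl fun i hi => ?_
      rw [h1 i (mem_insert_of_mem hi) a (mem_insert_self _ _)]
    have hQb : BM fun ω => R ω * J a ω * P ω := (hR.mul (hJ a)).mul hPb
    have e3 := (hu a).integral_mul hQb (hG a) (g a) (fun ω x => by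
      rw [hRu a (mem_insert_self _ _), h1 a (mem_insert_self _ _) a (mem_insert_self _ _), hPu])
      (h3 a (mem_insert_self _ _))
    have e4 : ∀ ω, R ω * (1 + J a ω * (G a ω - 1)) * P ω =
        (R ω * P ω - R ω * J a ω * P ω) + R ω * J a ω * P ω * G a ω := fun ω => by ring
    have e5 : ∀ ω, R ω * ((1 + J a ω * ((∫ x, g a x ∂(ν a)) - 1)) * P ω) =
        (R ω * P ω - R ω * J a ω * P ω) + R ω * J a ω * P ω * (∫ x, g a x ∂(ν a)) :=
      fun ω => by ring
    change ∫ ω, R ω * (1 + J a ω * (G a ω - 1)) * P ω ∂μ =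
      ∫ ω, R ω * ((1 + J a ω * ((∫ x, g a x ∂(ν a)) - 1)) * P ω) ∂μ
    simp_rw [e4, e5]
    rw [integral_add (((hR.mul hPb).sub hQb).integrable _) ((hQb.mul (hG a)).integrable _),
      integral_add (((hR.mul hPb).sub hQb).integrable _)
        ((hQb.mul (BM.const _)).integrable _), e3, integral_mul_const]

end prodformula

/-! ### Mixing two outcomes -/

section mixing

variable {ι X : Type*} [MeasurableSpace X]

open Classical in
/-- take the coordinates in `U` from the second point -/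
noncomputable def mixp (U : Set ι) (x y : ι → X) (i : ι) : X := if i ∈ U then y i else x i

theorem resamp_mixp (μ : ι → Measure X) [∀ i, IsProbabilityMeasure (μ i)] (U : Set ι) :
    Resamp (infinitePi μ) (infinitePi μ) (mixp U) := by
  classical
  have hm : Measurable fun q : (ι → X) × (ι → X) => mixp U q.1 q.2 := by
    refine measurable_pi_lambda _ fun i => ?_
    unfold mixp
    by_cases h : i ∈ U
    · simp only [h, if_true]
      exact (measurable_pi_apply i).comp measurable_snd
    · simp only [h, if_false]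
      exact (measurable_pi_apply i).comp measurable_fst
  refine ⟨hm, ?_⟩
  refine eq_infinitePi μ fun s t ht => ?_
  rw [map_apply hm (.pi s.countable_toSet fun _ _ ↦ ht _)]
  have e : (fun q : (ι → X) × (ι → X) => mixp U q.1 q.2) ⁻¹' ((s : Set ι).pi t) =
      ((s.filter fun i => ¬ i ∈ U : Finset ι) : Set ι).pi t ×ˢ
        ((s.filter fun i => i ∈ U : Finset ι) : Set ι).pi t := by
    ext q
    simp only [Set.mem_preimage, Set.mem_pi, Finset.mem_coe, Set.mem_prod, Finset.mem_filter, mixp]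
    constructor
    · intro h
      refine ⟨fun i hi => ?_, fun i hi => ?_⟩
      · have := h i hi.1
        rwa [if_neg hi.2] at this
      · have := h i hi.1
        rwa [if_pos hi.2] at this
    · rintro ⟨h1, h2⟩ i hi
      by_cases hU : i ∈ U
      · rw [if_pos hU]; exact h2 i ⟨hi, hU⟩
      · rw [if_neg hU]; exact h1 i ⟨hi, hU⟩
  rw [e, prod_prod, infinitePi_pi _ (fun i _ => ht i), infinitePi_pi _ (fun i _ => ht i), mul_comm]
  exact Finset.prod_filter_mul_prod_filter_not s (fun i => i ∈ U) fun i => μ i (t i)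

end mixing

section mixOm

variable [MeasurableSpace V] [MeasurableSingletonClass V] [Countable V]

/-- the indices that belong to the vertices in `U` -/
def idx (U : Set V) : Set (ℕ × V × ℕ) := {a | a.2.1 ∈ U}

/-- take everything attached to the vertices of `U` from the second outcome -/
noncomputable def mix (U : Set V) (ω : Om V)
    (q : ((V → Bool) × (ℕ × V × ℕ → V)) × (ℕ × V × ℕ → Bool)) : Om V :=
  (mixp U ω.1 q.1.1, (mixp (idx U) ω.2.1 q.1.2, mixp (idx U) ω.2.2 q.2))

variable (S : Tri V) {p κ : ℝ} (hp : 0 ≤ p ∧ p ≤ 1) (hκ : 0 ≤ κ ∧ κ ≤ 1)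

/-- the law with the other bracketing -/
noncomputable def law' (p κ : ℝ) :
    Measure (((V → Bool) × (ℕ × V × ℕ → V)) × (ℕ × V × ℕ → Bool)) :=
  ((infinitePi fun _ : V => bern p).prod
    (infinitePi fun a : ℕ × V × ℕ => stepLaw S.nb S.K a.2.1)).prod
      (infinitePi fun _ : ℕ × V × ℕ => bern κ)

include hp hκ in
theorem resamp_mix (U : Set V) : Resamp (S.law p κ) (law' S p κ) (mix U) := by
  have := bern_prob hp.1 hp.2
  have := bern_prob hκ.1 hκ.2
  have := law_prob S hp hκ
  have r0 := (resamp_mixp (fun _ : V => bern p) U).left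
    ((infinitePi fun a : ℕ × V × ℕ => stepLaw S.nb S.K a.2.1).prod
      (infinitePi fun _ : ℕ × V × ℕ => bern κ))
  have r1 := ((resamp_mixp (fun a : ℕ × V × ℕ => stepLaw S.nb S.K a.2.1) (idx U)).left
    (infinitePi fun _ : ℕ × V × ℕ => bern κ)).right (infinitePi fun _ : V => bern p)
  have r2 := ((resamp_mixp (fun _ : ℕ × V × ℕ => bern κ) (idx U)).right
    (infinitePi fun a : ℕ × V × ℕ => stepLaw S.nb S.K a.2.1)).right
    (infinitePi fun _ : V => bern p)
  exact (r0.comp r1).comp r2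

/-- change of the bracketing -/
def rebr (q : ((V → Bool) × (ℕ × V × ℕ → V)) × (ℕ × V × ℕ → Bool)) : Om V :=
  (q.1.1, (q.1.2, q.2))

include hp hκ in
omit [DecidableEq V] [MeasurableSingletonClass V] [Countable V] in
theorem integral_rebr [DecidableEq V] (S : Tri V) {F : Om V → ℝ} (hF : BM F) :
    ∫ q, F (rebr q) ∂(law' S p κ) = ∫ ω, F ω ∂(S.law p κ) := by
  have := bern_prob hp.1 hp.2
  have := bern_prob hκ.1 hκ.2
  have h : MeasurePreserving (rebr (V := V)) (law' S p κ) (S.law p κ) :=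
    measurePreserving_prodAssoc _ _ _
  have h2 := integral_map h.measurable.aemeasurable
    (hF.meas.aestronglyMeasurable (μ := Measure.map (rebr (V := V)) (law' S p κ)))
  rw [h.map_eq] at h2
  exact h2.symm

theorem agree_mix (U : Set V) (ω : Om V)
    (q : ((V → Bool) × (ℕ × V × ℕ → V)) × (ℕ × V × ℕ → Bool)) :
    Agree U (mix U ω q) (rebr q) := by
  refine ⟨fun v hv => ?_, fun v hv t i => ?_, fun v hv t i => ?_⟩
  · simp [mix, rebr, mixp, hv]
  · simp [mix, rebr, mixp, hv, idx]
  · simp [mix, rebr, mixp, hv, idx]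

theorem agree_mix' (U W : Set V) (h : Disjoint U W) (ω : Om V)
    (q : ((V → Bool) × (ℕ × V × ℕ → V)) × (ℕ × V × ℕ → Bool)) :
    Agree W (mix U ω q) ω := by
  have hw : ∀ v ∈ W, v ∉ U := fun v hv hu => Set.disjoint_left.1 h hu hv
  refine ⟨fun v hv => ?_, fun v hv t i => ?_, fun v hv t i => ?_⟩
  · simp [mix, mixp, hw v hv]
  · simp [mix, mixp, hw v hv, idx]
  · simp [mix, mixp, hw v hv, idx]

include hp hκ in
/-- functions of the randomness on disjoint sets of vertices are independent -/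
theorem integral_mul_of_disjoint {U W : Set V} (h : Disjoint U W) {F G : Om V → ℝ} (hF : BM F)
    (hG : BM G) (hFU : ∀ ω ω', Agree U ω ω' → F ω = F ω') (hGW : ∀ ω ω', Agree W ω ω' → G ω = G ω') :
    ∫ ω, F ω * G ω ∂(S.law p κ) = (∫ ω, F ω ∂(S.law p κ)) * ∫ ω, G ω ∂(S.law p κ) := by
  have := bern_prob hp.1 hp.2
  have := bern_prob hκ.1 hκ.2
  have := law_prob S hp hκ
  have : IsProbabilityMeasure (law' S p κ) := by unfold law'; infer_instance
  have e := (resamp_mix S hp hκ U).integral_mul hG hF (fun q => F (rebr q))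
    (fun ω q => hGW _ _ (agree_mix' U W h ω q)) (fun ω q => hFU _ _ (agree_mix U ω q))
  rw [integral_rebr hp hκ S hF] at e
  rw [mul_comm (∫ ω, F ω ∂(S.law p κ)), ← e]
  exact integral_congr_ae (Filter.Eventually.of_forall fun ω => mul_comm _ _)

end mixOm

end Pool.Agent.J6H78.PK
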