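import Pool.Agent.TH996.Link
import Pool.Agent.J6H78.PK.Bounds

set_option autoImplicit false

/-! # The directed parking process on the free group with two generators -/

namespace Pool.Agent.J6H78.PK

open Pool.Agent.TH996.Parking Pool.Agent.TH996.Park

/-- the free group with the free generators `of true` and `of false` -/
abbrev F2 : Type := FreeGroup Bool

instance : MeasurableSpace F2 := ⊤

instance : DiscreteMeasurableSpace F2 := ⟨fun _ => trivial⟩

/-- The Cayley graph of the free group: a 4-regular tree. `x` is adjacent to `x * a` for the two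
generators `a`. -/
def cayley : SimpleGraph F2 where
  Adj x y := ∃ b : Bool, y = x * FreeGroup.of b ∨ x = y * FreeGroup.of b
  symm := ⟨by
    rintro x y ⟨b, h | h⟩
    · exact ⟨b, Or.inr h⟩
    · exact ⟨b, Or.inl h⟩⟩
  loopless := ⟨by
    rintro x ⟨b, h | h⟩
    · exact FreeGroup.of_ne_one b (left_eq_mul.1 h)
    · exact FreeGroup.of_ne_one b (left_eq_mul.1 h)⟩

open Classical in
/-- The walk goes from `x` to `x * a` or to `x * b`, with probability one half each. -/
noncomputable def ker (x y : F2) : ℝ := if ∃ b : Bool, y = x * FreeGroup.of b then 1 / 2 else 0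

/-- The group acting on itself by multiplication from the left. -/
def Lft : Subgroup (Equiv.Perm F2) := (MulAction.toPermHom F2 F2).range

theorem neighbor_finite (x : F2) : (cayley.neighborSet x).Finite := by
  refine (Set.finite_range fun q : Bool × Bool =>
    if q.2 then x * FreeGroup.of q.1 else x * (FreeGroup.of q.1)⁻¹).subset ?_
  rintro y ⟨b, h | h⟩
  · exact ⟨(b, true), by simp [h]⟩
  · exact ⟨(b, false), by simp [h]⟩

noncomputable instance : cayley.LocallyFinite := fun x => (neighbor_finite x).fintype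

theorem mem_Lft {φ : Equiv.Perm F2} (h : φ ∈ Lft) : ∃ g : F2, ∀ x, φ x = g * x := by
  obtain ⟨g, rfl⟩ := h
  exact ⟨g, fun x => rfl⟩

theorem lft_mem (g : F2) : ∃ φ ∈ Lft, ∀ x, φ x = g * x :=
  ⟨MulAction.toPermHom F2 F2 g, ⟨g, rfl⟩, fun _ => rfl⟩

theorem adj_mul (x : F2) (b : Bool) : cayley.Adj x (x * FreeGroup.of b) := ⟨b, Or.inl rfl⟩

theorem of_inj' {x : F2} : x * FreeGroup.of true ≠ x * FreeGroup.of false := by
  intro h
  have := FreeGroup.of_injective (mul_left_cancel h)
  exact absurd this (by simp)

theorem sum_ker (x : F2) : ∑ v ∈ cayley.neighborFinset x, ker x v = 1 := by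
  classical
  have hsub : ({x * FreeGroup.of true, x * FreeGroup.of false} : Finset F2) ⊆
      cayley.neighborFinset x := by
    intro y hy
    rw [SimpleGraph.mem_neighborFinset]
    rcases Finset.mem_insert.1 hy with h | h
    · rw [h]; exact adj_mul x true
    · rw [Finset.mem_singleton.1 h]; exact adj_mul x false
  rw [← Finset.sum_subset hsub]
  · rw [Finset.sum_pair of_inj']
    unfold ker
    rw [if_pos ⟨true, rfl⟩, if_pos ⟨false, rfl⟩]
    norm_num
  · intro y _ hy
    unfold ker
    rw [if_neg]
    rintro ⟨b, rfl⟩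
    apply hy
    cases b <;> simp

theorem isKernel : IsKernel cayley ker where
  nonneg u v := by unfold ker; split_ifs <;> norm_num
  supp u v h := by
    unfold ker
    rw [if_neg]
    rintro ⟨b, rfl⟩
    exact h (adj_mul u b)
  sum_one := sum_ker

theorem isAut : IsAut cayley ker Lft where
  adj φ hφ u v := by
    obtain ⟨g, hg⟩ := mem_Lft hφ
    simp only [hg, cayley, mul_assoc, mul_right_inj]
  ker φ hφ u v := by
    obtain ⟨g, hg⟩ := mem_Lft hφ
    unfold ker
    simp only [hg, mul_assoc, mul_right_inj]

theorem isTransitive : IsTransitive Lft := by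
  intro u v
  obtain ⟨φ, hφ, h⟩ := lft_mem (v * u⁻¹)
  exact ⟨φ, hφ, by rw [h]; simp⟩

theorem stab (u v : F2) : stabOrbit Lft u v = {v} := by
  ext w
  constructor
  · rintro ⟨φ, hφ, h1, h2⟩
    obtain ⟨g, hg⟩ := mem_Lft hφ
    rw [hg] at h1 h2
    have : g = 1 := by simpa using h1
    rw [this, one_mul] at h2
    exact h2.symm
  · rintro rfl
    exact ⟨1, Lft.one_mem, rfl, rfl⟩

theorem isUnimodular : IsUnimodular Lft := by
  intro u v
  rw [stab, stab]
  simp

theorem infinite_range : (Set.range fun n : ℕ => ((FreeGroup.of true : F2)⁻¹) ^ n).Infinite := by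
  refine Set.infinite_range_of_injective fun m n h => ?_
  have h1 := congrArg (FreeGroup.lift fun _ : Bool => Multiplicative.ofAdd (1 : ℤ)) h
  simp only [map_pow, map_inv, FreeGroup.lift_apply_of] at h1
  have h2 := congrArg Multiplicative.toAdd h1
  simp only [toAdd_pow, toAdd_inv, toAdd_ofAdd] at h2
  simp at h2
  exact h2

theorem isInfinitelyAccessible : IsInfinitelyAccessible cayley ker Lft := by
  obtain ⟨φ, hφ, h⟩ := lft_mem (FreeGroup.of true)⁻¹
  refine ⟨φ, hφ, 1, ?_, ?_⟩
  · have e : (fun n : ℕ => (φ ^ n) 1) = fun n : ℕ => ((FreeGroup.of true : F2)⁻¹) ^ n := by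
      funext n
      induction n with
      | zero => simp
      | succ n ih =>
        rw [pow_succ', Equiv.Perm.mul_apply, ih, h, pow_succ']
    rw [e]
    exact infinite_range
  · refine Relation.ReflTransGen.single ⟨?_, ?_⟩
    · rw [h, mul_one]
      exact ⟨true, Or.inl (by simp)⟩
    · unfold ker
      rw [h, mul_one, if_pos ⟨true, by simp⟩]
      norm_num

theorem reach (x : F2) : ∀ y : F2, cayley.Reachable y (y * x) := by
  induction x using FreeGroup.induction_on with
  | C1 => intro y; simp
  | of b => intro y; exact (adj_mul y b).reachable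
  | inv_of b _ =>
    intro y
    have : cayley.Adj y (y * (FreeGroup.of b)⁻¹) := ⟨b, Or.inr (by simp)⟩
    exact this.reachable
  | mul x z hx hz =>
    intro y
    rw [← mul_assoc]
    exact (hx y).trans (hz (y * x))

theorem connected : cayley.Connected := by
  rw [SimpleGraph.connected_iff]
  refine ⟨fun u v => ?_, ⟨1⟩⟩
  have := reach (u⁻¹ * v) u
  rwa [mul_inv_cancel_left] at this

/-! ### Ancestors -/

/-- the two predecessors -/
def pre (x : F2) : Finset F2 := {x * (FreeGroup.of true)⁻¹, x * (FreeGroup.of false)⁻¹}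

theorem mem_pre {x y : F2} : y ∈ pre x ↔ ∃ b : Bool, x = y * FreeGroup.of b := by
  unfold pre
  simp only [Finset.mem_insert, Finset.mem_singleton]
  constructor
  · rintro (h | h)
    · exact ⟨true, by rw [h]; simp⟩
    · exact ⟨false, by rw [h]; simp⟩
  · rintro ⟨b, rfl⟩
    cases b <;> simp

/-- positive words -/
def pos (L : List Bool) : F2 := FreeGroup.mk (L.map fun b => (b, true))

theorem pos_append (L : List Bool) (b : Bool) : pos (L ++ [b]) = pos L * FreeGroup.of b := by
  unfold pos
  rw [List.map_append, ← FreeGroup.mul_mk]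
  rfl

theorem pos_reduced (L : List Bool) : FreeGroup.IsReduced (L.map fun b => (b, true)) := by
  unfold FreeGroup.IsReduced
  rw [List.isChain_map]
  exact (List.pairwise_of_forall fun _ _ _ => rfl).isChain

theorem pos_inj {L L' : List Bool} (h : pos L = pos L') : L = L' := by
  have h1 := FreeGroup.Red.exact.1 h
  obtain ⟨c, hc1, hc2⟩ := h1
  rw [(pos_reduced L).red_iff_eq] at hc1
  rw [(pos_reduced L').red_iff_eq] at hc2
  have h2 := hc1.symm.trans hc2
  exact List.map_injective_iff.2 (fun a b hab => by simpa using hab) h2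

theorem ancE_pos {v x : F2} (h : v ∈ AncE pre x) : ∃ L, x = v * pos L := by
  unfold AncE at h
  induction h with
  | refl => exact ⟨[], by
      have : pos [] = 1 := rfl
      rw [this, mul_one]⟩
  | tail _ h2 ih =>
    obtain ⟨L, hL⟩ := ih
    obtain ⟨b, hb⟩ := mem_pre.1 h2
    exact ⟨L ++ [b], by rw [pos_append, hb, hL, mul_assoc]⟩

theorem anc_pos {v x : F2} (h : v ∈ Anc pre x) : ∃ L, L ≠ [] ∧ x = v * pos L := by
  unfold Anc at h
  obtain ⟨c, h1, h2⟩ := Relation.TransGen.tail'_iff.1 h
  obtain ⟨L, hL⟩ := ancE_pos (x := c) h1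
  obtain ⟨b, hb⟩ := mem_pre.1 h2
  exact ⟨L ++ [b], by simp, by rw [pos_append, hb, hL, mul_assoc]⟩

/-- the triple in the form used by the library -/
noncomputable def tri : Tri F2 := mkTri cayley ker Lft isKernel isAut isTransitive isUnimodular

theorem treeLike : TreeLike tri pre where
  sub x y hy := by
    change y ∈ cayley.neighborFinset x
    rw [SimpleGraph.mem_neighborFinset]
    obtain ⟨b, rfl⟩ := mem_pre.1 hy
    exact ⟨b, Or.inr rfl⟩
  ker x y _ := by
    change ker y x = _
    unfold ker
    simp only [mem_pre]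
  two x := ⟨x * (FreeGroup.of true)⁻¹, x * (FreeGroup.of false)⁻¹, fun h => by
    have := FreeGroup.of_injective (inv_injective (mul_left_cancel h))
    exact absurd this (by simp), rfl⟩
  noloop x h := by
    obtain ⟨L, hL, h1⟩ := anc_pos h
    have h2 : pos L = pos [] := by
      have : pos L = 1 := by simpa using h1.symm
      rw [this]; rfl
    exact hL (pos_inj h2)
  disj x y hy z hz hyz := by
    rw [Set.disjoint_left]
    intro v hv1 hv2
    obtain ⟨b, hb⟩ := mem_pre.1 hy
    obtain ⟨c, hc⟩ := mem_pre.1 hz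
    obtain ⟨L, hL⟩ := ancE_pos hv1
    obtain ⟨L', hL'⟩ := ancE_pos hv2
    have h1 : v * pos (L ++ [b]) = v * pos (L' ++ [c]) := by
      rw [pos_append, pos_append, ← mul_assoc, ← mul_assoc, ← hL, ← hL', ← hb, ← hc]
    have h2 := pos_inj (mul_left_cancel h1)
    have h3 : b = c := by
      have := congrArg List.getLast? h2
      simpa using this
    subst h3
    exact hyz (mul_right_cancel (hb.symm.trans hc))

end Pool.Agent.J6H78.PK
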