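import Pool.Agent.J6H78.PK.Dep

set_option autoImplicit false
set_option linter.unusedSectionVars false

/-! # The recursion for the generating functions on tree-like directed triples -/

namespace Pool.Agent.J6H78.PK

open MeasureTheory Measure Finset
open Pool.Agent.TH996.Park

variable {V : Type*} [DecidableEq V]

/-- the triple is carried by a directed tree in which each vertex has two predecessors -/
structure TreeLike (S : Tri V) (pd : V → Finset V) : Prop where
  sub : ∀ x, pd x ⊆ S.nb x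
  ker : ∀ x, ∀ y ∈ S.nb x, S.K y x = if y ∈ pd x then 1 / 2 else 0
  two : ∀ x, ∃ y z, y ≠ z ∧ pd x = {y, z}
  noloop : ∀ x, x ∉ Anc pd x
  disj : ∀ x, ∀ y ∈ pd x, ∀ z ∈ pd x, y ≠ z → Disjoint (AncE pd y) (AncE pd z)

/-- all moves have positive probability -/
def Legal (S : Tri V) (ω : Om V) : Prop := ∀ a : ℕ × V × ℕ, S.K a.2.1 (ω.2.1 a) ≠ 0

/-- number of visits before time `T + 1` -/
def Nv (nb : V → Finset V) (T : ℕ) (x : V) (ω : Om V) : ℕ := ∑ t ∈ range T, An nb t x ω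

/-- number of departures before time `T + 1` -/
def Dp (nb : V → Finset V) (T : ℕ) (x : V) (ω : Om V) : ℕ := ∑ t ∈ range T, Cn nb t x ω

section legal

variable {S : Tri V} {pd : V → Finset V} (h : TreeLike S pd) {ω : Om V} (hl : Legal S ω)

include h hl

theorem legal_arr (c : V → ℕ) (t : ℕ) (x : V) :
    arr S.nb ω.2.1 ω.2.2 c t x = arr pd ω.2.1 ω.2.2 c t x := by
  unfold arr
  refine (sum_subset (h.sub x) fun y hy hyn => ?_).symm
  rw [card_eq_zero, filter_eq_empty_iff]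
  rintro i - ⟨-, h2⟩
  refine hl (t, y, i) ?_
  rw [h2, h.ker x y hy, if_neg hyn]

theorem legal_st (t : ℕ) : st S.nb ω.2.1 ω.2.2 (c0 ω.1) (f0 ω.1) t =
    st pd ω.2.1 ω.2.2 (c0 ω.1) (f0 ω.1) t := by
  induction t with
  | zero => rfl
  | succ t ih =>
    unfold st
    rw [ih]
    simp only [legal_arr h hl]

theorem legal_C (t : ℕ) (x : V) : Cn S.nb t x ω = Cn pd t x ω := by
  unfold Cn cs
  rw [legal_st h hl]

theorem legal_F (t : ℕ) (x : V) : Fn S.nb t x ω = Fn pd t x ω := by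
  unfold Fn fr
  rw [legal_st h hl]

theorem legal_A (t : ℕ) (x : V) : An S.nb t x ω = An pd t x ω := by
  unfold An ar
  rw [legal_st h hl, legal_arr h hl]

theorem legal_N (T : ℕ) (x : V) : Nv S.nb T x ω = Nv pd T x ω :=
  sum_congr rfl fun t _ => legal_A h hl t x

theorem legal_D (T : ℕ) (x : V) : Dp S.nb T x ω = Dp pd T x ω :=
  sum_congr rfl fun t _ => legal_C h hl t x

end legal

/-- pointwise relation between departures and visits -/
theorem dep_cases (nb : V → Finset V) (T : ℕ) (x : V) (ω : Om V) :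
    (ω.1 x = true ∧ Fn nb T x ω = 0 ∧ Dp nb (T + 1) x ω = Nv nb T x ω + 1) ∨
    (ω.1 x = false ∧ Fn nb T x ω = 0 ∧ Dp nb (T + 1) x ω + 1 = Nv nb T x ω) ∨
    (ω.1 x = false ∧ Fn nb T x ω = 1 ∧ Dp nb (T + 1) x ω = 0 ∧ Nv nb T x ω = 0) := by
  have h1 := dep_eq nb ω.2.1 ω.2.2 (c0 ω.1) (f0 ω.1) (T + 1) x
  have h2 := bal nb ω.2.1 ω.2.2 (c0 ω.1) (f0 ω.1) T x
  have e1 : (dep nb ω.2.1 ω.2.2 (c0 ω.1) (f0 ω.1) (T + 1) x) = Dp nb (T + 1) x ω := rfl
  have e2 : (vis nb ω.2.1 ω.2.2 (c0 ω.1) (f0 ω.1) (T + 1) x) = Nv nb T x ω + An nb T x ω := by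
    unfold vis Nv
    rw [sum_range_succ]
    rfl
  have h3 : (Dp nb (T + 1) x ω : ℝ) = Nv nb T x ω + ((c0 ω.1 x : ℝ) - f0 ω.1 x) + Fn nb T x ω := by
    rw [e1, e2] at h1
    push_cast at h1
    have : (An nb T x ω : ℝ) = ar nb ω.2.1 ω.2.2 (c0 ω.1) (f0 ω.1) T x := rfl
    have : (Fn nb T x ω : ℝ) = fr nb ω.2.1 ω.2.2 (c0 ω.1) (f0 ω.1) T x := rfl
    linarith
  have hF1 : Fn nb T x ω ≤ f0 ω.1 x := fr_le nb ω.2.1 ω.2.2 (c0 ω.1) (f0 ω.1) T x
  by_cases hb : ω.1 x = true
  · left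
    have hf : f0 ω.1 x = 0 := by simp [f0, hb]
    have hc : c0 ω.1 x = 1 := by simp [c0, hb]
    rw [hf] at hF1
    have hF : Fn nb T x ω = 0 := by omega
    rw [hf, hc, hF] at h3
    refine ⟨hb, hF, ?_⟩
    have : (Dp nb (T + 1) x ω : ℝ) = ((Nv nb T x ω + 1 : ℕ) : ℝ) := by
      rw [h3]; push_cast; ring
    exact_mod_cast this
  · right
    have hb' : ω.1 x = false := by simpa using hb
    have hf : f0 ω.1 x = 1 := by simp [f0, hb']
    have hc : c0 ω.1 x = 0 := by simp [c0, hb']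
    rw [hf] at hF1
    rcases Nat.eq_zero_or_pos (Fn nb T x ω) with hF | hF
    · left
      rw [hf, hc, hF] at h3
      refine ⟨hb', hF, ?_⟩
      have : ((Dp nb (T + 1) x ω + 1 : ℕ) : ℝ) = (Nv nb T x ω : ℝ) := by
        push_cast; rw [h3]; push_cast; ring
      exact_mod_cast this
    · right
      have hF' : Fn nb T x ω = 1 := by omega
      have hz : ∀ t ∈ range (T + 1), Cn nb t x ω = 0 := fun t ht =>
        cs_eq_zero nb ω.2.1 ω.2.2 (c0 ω.1) (f0 ω.1) x (c0_add_f0 ω.1 x) T t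
          (by have := mem_range.1 ht; omega) hF
      have hD : Dp nb (T + 1) x ω = 0 := sum_eq_zero hz
      rw [hf, hc, hF', hD] at h3
      refine ⟨hb', hF', hD, ?_⟩
      have : ((Nv nb T x ω : ℕ) : ℝ) = ((0 : ℕ) : ℝ) := by
        push_cast at h3 ⊢; linarith
      exact_mod_cast this

/-- the relation in terms of powers -/
theorem pow_dep {r : ℝ} (hr : r ≠ 0) (nb : V → Finset V) (T : ℕ) (x : V) (ω : Om V) :
    r ^ Dp nb (T + 1) x ω = r⁻¹ * r ^ Nv nb T x ω +
      (r - r⁻¹) * (r ^ Nv nb T x ω * (if ω.1 x then 1 else 0)) - (r⁻¹ - 1) * Fn nb T x ω := by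
  rcases dep_cases nb T x ω with ⟨h1, h2, h3⟩ | ⟨h1, h2, h3⟩ | ⟨h1, h2, h3, h4⟩
  · rw [h1, h2, h3, pow_succ]
    simp only [if_true, Nat.cast_zero]
    ring
  · rw [h1, h2, ← h3, pow_succ]
    have e : r⁻¹ * (r ^ Dp nb (T + 1) x ω * r) = r ^ Dp nb (T + 1) x ω := by
      field_simp
    rw [e]
    simp
  · rw [h1, h2, h3, h4]
    simp

theorem F_eq_pow (nb : V → Finset V) (T : ℕ) (x : V) (ω : Om V) :
    (Fn nb T x ω : ℝ) = (0 : ℝ) ^ Nv nb T x ω - (0 : ℝ) ^ Nv nb T x ω * (if ω.1 x then 1 else 0) := by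
  rcases dep_cases nb T x ω with ⟨h1, h2, h3⟩ | ⟨h1, h2, h3⟩ | ⟨h1, h2, h3, h4⟩
  · rw [h1, h2]; simp
  · rw [h1, h2, ← h3]; simp
  · rw [h1, h2, h4]; simp

/-! ### The product formula for the visits -/

theorem inner_prod (s : ℝ) (C B : ℕ) (hC : C ≤ B) (P : ℕ → Prop) [DecidablePred P] :
    ∏ i ∈ range B, (1 + (if i < C then (1 : ℝ) else 0) * ((if P i then s else 1) - 1)) =
      s ^ ((range C).filter P).card := by
  have e1 : ∀ i ∈ range B, (1 + (if i < C then (1 : ℝ) else 0) * ((if P i then s else 1) - 1)) =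
      if i < C then (if P i then s else 1) else 1 := by
    intro i _
    split_ifs <;> ring
  rw [prod_congr rfl e1, ← prod_filter]
  have e2 : (range B).filter (fun i => i < C) = range C := by
    ext i
    simp only [mem_filter, mem_range]
    omega
  rw [e2, prod_ite, prod_const, prod_const_one, mul_one]

theorem inner_prod' (r : ℝ) (C B : ℕ) (hC : C ≤ B) :
    ∏ i ∈ range B, (1 + (if i < C then (1 : ℝ) else 0) * (r - 1)) = r ^ C := by
  have := inner_prod r C B hC (fun _ => True)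
  simpa using this

section J2

variable [MeasurableSpace V] [MeasurableSingletonClass V] [Countable V]
variable {S : Tri V} {pd : V → Finset V} (h : TreeLike S pd) {p : ℝ} (hp : 0 ≤ p ∧ p ≤ 1)

theorem measurable_Nv (nb : V → Finset V) (T : ℕ) (x : V) : Measurable (Nv nb T x) :=
  Finset.measurable_fun_sum _ fun t _ => (measurable_CF nb t).2.2 x

theorem measurable_Dp (nb : V → Finset V) (T : ℕ) (x : V) : Measurable (Dp nb T x) :=
  Finset.measurable_fun_sum _ fun t _ => (measurable_CF nb t).1 x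

theorem bm_pow {s : ℝ} (h0 : 0 ≤ s) (h1 : s ≤ 1) {f : Om V → ℕ} (hf : Measurable f) :
    BM fun ω => s ^ f ω := by
  refine ⟨(measurable_of_countable fun n : ℕ => s ^ n).comp hf, 1, fun ω => ?_⟩
  rw [abs_of_nonneg (pow_nonneg h0 _)]
  exact pow_le_one₀ h0 h1

theorem agree_upd (U : Set V) (a : ℕ × V × ℕ) (ha : a.2.1 ∉ U) (ω : Om V) (q : V × Bool) :
    Agree U (upd a ω q) ω := by
  have hne : ∀ v ∈ U, ∀ t i, (t, v, i) ≠ a := by
    rintro v hv t i rfl
    exact ha hv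
  refine ⟨fun v hv => rfl, fun v hv t i => ?_, fun v hv t i => ?_⟩
  · simp [upd, Function.update_of_ne (hne v hv t i)]
  · simp [upd, Function.update_of_ne (hne v hv t i)]

include h hp in
theorem visits_formula (T : ℕ) (x : V) {s : ℝ} (h0 : 0 ≤ s) (h1 : s ≤ 1) :
    ∫ ω, s ^ Nv pd T x ω ∂(S.law p 0) = ∫ ω, ∏ y ∈ pd x, ((1 + s) / 2) ^ Dp pd T y ω ∂(S.law p 0) := by
  have hκ : (0 : ℝ) ≤ 0 ∧ (0 : ℝ) ≤ 1 := ⟨le_rfl, zero_le_one⟩
  have := law_prob S hp hκ
  have := bern_prob hκ.1 hκ.2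
  set B : ℕ := ∑ t ∈ range T, ∑ y ∈ pd x, bd pd t y with hB
  have hCB : ∀ t ∈ range T, ∀ y ∈ pd x, ∀ ω, Cn pd t y ω ≤ B := by
    intro t ht y hy ω
    refine (cs_le_bd pd _ _ _ _ (c0_le ω.1) t y).trans ?_
    refine le_trans ?_ (single_le_sum (f := fun t => ∑ y ∈ pd x, bd pd t y)
      (fun _ _ => Nat.zero_le _) ht)
    exact single_le_sum (f := fun y => bd pd t y) (fun _ _ => Nat.zero_le _) hy
  set A : Finset (ℕ × V × ℕ) := range T ×ˢ (pd x ×ˢ range B) with hA
  let J : ℕ × V × ℕ → Om V → ℝ := fun a ω => if a.2.2 < Cn pd a.1 a.2.1 ω then 1 else 0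
  let G : ℕ × V × ℕ → Om V → ℝ := fun a ω => if ω.2.2 a = false ∧ ω.2.1 a = x then s else 1
  let g : ℕ × V × ℕ → V × Bool → ℝ := fun _ q => if q.2 = false ∧ q.1 = x then s else 1
  have hJ : ∀ a, BM (J a) := by
    intro a
    refine ⟨(measurable_of_countable fun n : ℕ => if a.2.2 < n then (1 : ℝ) else 0).comp
      ((measurable_CF pd a.1).1 a.2.1), 1, fun ω => ?_⟩
    simp only [J]
    split_ifs <;> simp
  have hG : ∀ a, BM (G a) := by
    rintro ⟨t, y, i⟩
    refine ⟨Measurable.ite (measurable_used t y x i) measurable_const measurable_const, 1,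
      fun ω => ?_⟩
    simp only [G]
    split_ifs
    · rw [abs_of_nonneg h0]; exact h1
    · simp
  have hmem : ∀ a ∈ A, a.1 ∈ range T ∧ a.2.1 ∈ pd x := by
    intro a ha
    rw [hA, mem_product, mem_product] at ha
    exact ⟨ha.1, ha.2.1⟩
  have hJu : ∀ i ∈ A, ∀ j ∈ A, ∀ ω q, J i (upd j ω q) = J i ω := by
    intro i hi j hj ω q
    have hnot : j.2.1 ∉ Anc pd i.2.1 := by
      by_cases e : j.2.1 = i.2.1
      · rw [e]; exact h.noloop _
      · intro hc
        exact Set.disjoint_left.1 (h.disj x _ (hmem j hj).2 _ (hmem i hi).2 e)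
          (self_ancE pd j.2.1) (anc_sub_ancE pd _ hc)
    have hag := agree_upd (Anc pd i.2.1) j hnot ω q
    have := (CF_agree' (anc_closed pd _) hag (nb_anc pd _) rfl i.1).1
    simp only [J]
    rw [this]
  have hGu : ∀ i ∈ A, ∀ j ∈ A, j ≠ i → ∀ ω q, G i (upd j ω q) = G i ω := by
    intro i _ j _ hne ω q
    simp only [G, upd, Function.update_of_ne hne.symm]
  have hGs : ∀ i ∈ A, ∀ ω q, G i (upd i ω q) = g i q := by
    intro i _ ω q
    simp only [G, upd, g, Function.update_self]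
  have key := prod_resamp (S.law p 0) (fun a => (stepLaw S.nb S.K a.2.1).prod (bern 0))
    (fun a => upd a) (fun a => resamp_upd S hp hκ a) J G g hJ hG A hJu hGu hGs
    (fun _ => 1) (BM.const 1) (fun _ _ _ _ => rfl)
  simp only [one_mul] at key
  have hgm : BM (fun q : V × Bool => if q.2 = false ∧ q.1 = x then s else 1) := by
    refine ⟨measurable_of_countable _, 1, fun q => ?_⟩
    split_ifs
    · rw [abs_of_nonneg h0]; exact h1
    · simp
  have hgi : ∀ a ∈ A, ∫ q, g a q ∂((stepLaw S.nb S.K a.2.1).prod (bern 0)) = (1 + s) / 2 := by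
    intro a ha
    have hy := (hmem a ha).2
    rw [integral_step S hκ a.2.1 _ hgm]
    have e : ∀ v ∈ S.nb a.2.1, S.K a.2.1 v * (0 * (if (v, true).2 = false ∧ (v, true).1 = x then s
        else 1) + (1 - 0) * (if (v, false).2 = false ∧ (v, false).1 = x then s else 1)) =
        S.K a.2.1 v + (if v = x then S.K a.2.1 v * (s - 1) else 0) := by
      intro v _
      by_cases hv : v = x
      · simp [hv]; ring
      · simp [hv]
    rw [sum_congr rfl e, sum_add_distrib, S.sum_one, sum_ite_eq' (S.nb a.2.1) x,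
      if_pos (S.symm _ _ (h.sub x hy)), h.ker x _ (h.sub x hy), if_pos hy]
    ring
  have eL : ∀ ω, ∏ a ∈ A, (1 + J a ω * (G a ω - 1)) = s ^ Nv pd T x ω := by
    intro ω
    rw [hA, prod_product]
    unfold Nv
    rw [← prod_pow_eq_pow_sum]
    refine prod_congr rfl fun t ht => ?_
    rw [prod_product]
    have : An pd t x ω = ∑ y ∈ pd x, ((range (Cn pd t y ω)).filter
      fun i => ω.2.2 (t, y, i) = false ∧ ω.2.1 (t, y, i) = x).card := rfl
    rw [this, ← prod_pow_eq_pow_sum]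
    refine prod_congr rfl fun y hy => ?_
    exact inner_prod s _ B (hCB t ht y hy ω) _
  have eR : ∀ ω, ∏ a ∈ A, (1 + J a ω * ((∫ q, g a q ∂((stepLaw S.nb S.K a.2.1).prod (bern 0))) - 1))
      = ∏ y ∈ pd x, ((1 + s) / 2) ^ Dp pd T y ω := by
    intro ω
    have e1 : ∏ a ∈ A, (1 + J a ω * ((∫ q, g a q ∂((stepLaw S.nb S.K a.2.1).prod (bern 0))) - 1))
        = ∏ a ∈ A, (1 + J a ω * ((1 + s) / 2 - 1)) :=
      prod_congr rfl fun a ha => by rw [hgi a ha]
    rw [e1, hA, prod_product]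
    have e2 : ∀ t ∈ range T, ∏ b ∈ pd x ×ˢ range B, (1 + J (t, b) ω * ((1 + s) / 2 - 1)) =
        ∏ y ∈ pd x, ((1 + s) / 2) ^ Cn pd t y ω := by
      intro t ht
      rw [prod_product]
      refine prod_congr rfl fun y hy => ?_
      exact inner_prod' ((1 + s) / 2) _ B (hCB t ht y hy ω)
    rw [prod_congr rfl e2, prod_comm]
    refine prod_congr rfl fun y _ => ?_
    unfold Dp
    rw [prod_pow_eq_pow_sum]
  simp_rw [eL] at key
  rw [key]
  exact integral_congr_ae (Filter.Eventually.of_forall fun ω => eR ω)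

/-! ### Independence of the two branches, the initial state -/

/-- generating function of the number of visits -/
noncomputable def LL (S : Tri V) (p : ℝ) (x : V) (T : ℕ) (s : ℝ) : ℝ :=
  ∫ ω, s ^ Nv S.nb T x ω ∂(S.law p 0)

/-- generating function of the number of departures -/
noncomputable def RR (S : Tri V) (p : ℝ) (x : V) (T : ℕ) (s : ℝ) : ℝ :=
  ∫ ω, s ^ Dp S.nb T x ω ∂(S.law p 0)

include h hp in
theorem ae_legal : ∀ᵐ ω ∂(S.law p 0), Legal S ω := by
  have hκ : (0 : ℝ) ≤ 0 ∧ (0 : ℝ) ≤ 1 := ⟨le_rfl, zero_le_one⟩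
  have := bern_prob hp.1 hp.2
  have := bern_prob hκ.1 hκ.2
  have hcoord : ∀ a : ℕ × V × ℕ, MeasurePreserving (fun ω : Om V => ω.2.1 a) (S.law p 0)
      (stepLaw S.nb S.K a.2.1) := by
    intro a
    have e1 : MeasurePreserving (fun ω : Om V => ω.2.1) (S.law p 0)
        (infinitePi fun a : ℕ × V × ℕ => stepLaw S.nb S.K a.2.1) :=
      measurePreserving_fst.comp measurePreserving_snd
    exact (measurePreserving_eval_infinitePi _ a).comp e1
  unfold Legal
  rw [ae_all_iff]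
  intro a
  have hm : MeasurableSet {v : V | S.K a.2.1 v = 0} := (Set.to_countable _).measurableSet
  have h1 : (stepLaw S.nb S.K a.2.1) {v : V | S.K a.2.1 v = 0} = 0 := by
    unfold stepLaw
    rw [Measure.finsetSum_apply]
    refine sum_eq_zero fun y _ => ?_
    rw [Measure.smul_apply, Measure.dirac_apply' _ hm]
    by_cases hy : S.K a.2.1 y = 0
    · simp [hy]
    · simp [hy]
  have h2 := (hcoord a).measure_preimage hm.nullMeasurableSet
  rw [h1] at h2
  rw [ae_iff]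
  refine measure_mono_null ?_ h2
  intro ω hω
  simp only [Set.mem_ofPred_eq, not_not] at hω
  exact hω

include h hp in
theorem LL_eq (x : V) (T : ℕ) (s : ℝ) : LL S p x T s = ∫ ω, s ^ Nv pd T x ω ∂(S.law p 0) :=
  integral_congr_ae ((ae_legal h hp).mono fun ω hω => by
    dsimp only
    rw [legal_N h hω])

include h hp in
theorem RR_eq (x : V) (T : ℕ) (s : ℝ) : RR S p x T s = ∫ ω, s ^ Dp pd T x ω ∂(S.law p 0) :=
  integral_congr_ae ((ae_legal h hp).mono fun ω hω => by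
    dsimp only
    rw [legal_D h hω])

include hp in
theorem RR_inv (x y : V) (T : ℕ) {s : ℝ} (h0 : 0 ≤ s) (h1 : s ≤ 1) :
    RR S p x T s = RR S p y T s := by
  refine integral_inv S hp ⟨le_rfl, zero_le_one⟩ (X := fun x ω => s ^ Dp S.nb T x ω)
    (fun x => bm_pow h0 h1 (measurable_Dp S.nb T x)) (fun γ hγ x ω => ?_) x y
  have : Dp S.nb T (γ x) (shift γ ω) = Dp S.nb T x ω :=
    sum_congr rfl fun t _ => Cn_shift S hγ t x ω
  rw [this]

include h hp in
/-- the first half of the recursion -/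
theorem LL_RR (x : V) (T : ℕ) {s : ℝ} (h0 : 0 ≤ s) (h1 : s ≤ 1) :
    LL S p x T s = RR S p x T ((1 + s) / 2) ^ 2 := by
  have hκ : (0 : ℝ) ≤ 0 ∧ (0 : ℝ) ≤ 1 := ⟨le_rfl, zero_le_one⟩
  have hr0 : 0 ≤ (1 + s) / 2 := by linarith
  have hr1 : (1 + s) / 2 ≤ 1 := by linarith
  rw [LL_eq h hp, visits_formula h hp T x h0 h1]
  obtain ⟨y, z, hyz, hpd⟩ := h.two x
  have hy : y ∈ pd x := by rw [hpd]; simp
  have hz : z ∈ pd x := by rw [hpd]; simp
  have e : ∀ ω, ∏ v ∈ pd x, ((1 + s) / 2) ^ Dp pd T v ω =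
      ((1 + s) / 2) ^ Dp pd T y ω * ((1 + s) / 2) ^ Dp pd T z ω := by
    intro ω
    rw [hpd, prod_pair hyz]
  simp_rw [e]
  have hdep : ∀ v : V, ∀ ω ω' : Om V, Agree (AncE pd v) ω ω' →
      ((1 + s) / 2) ^ Dp pd T v ω = ((1 + s) / 2) ^ Dp pd T v ω' := by
    intro v ω ω' ha
    have : Dp pd T v ω = Dp pd T v ω' :=
      sum_congr rfl fun t _ => (CF_agree (ancE_closed pd v) ha t v (self_ancE pd v)).1
    rw [this]
  rw [integral_mul_of_disjoint S hp hκ (h.disj x y hy z hz hyz)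
    (bm_pow hr0 hr1 (measurable_Dp pd T y)) (bm_pow hr0 hr1 (measurable_Dp pd T z))
    (hdep y) (hdep z), ← RR_eq h hp, ← RR_eq h hp, RR_inv hp y x T hr0 hr1,
    RR_inv hp z x T hr0 hr1, sq]

include h hp in
theorem initial_indep (x : V) (T : ℕ) {s : ℝ} (h0 : 0 ≤ s) (h1 : s ≤ 1) :
    ∫ ω, s ^ Nv pd T x ω * (if ω.1 x then 1 else 0) ∂(S.law p 0) =
      p * ∫ ω, s ^ Nv pd T x ω ∂(S.law p 0) := by
  have hκ : (0 : ℝ) ≤ 0 ∧ (0 : ℝ) ≤ 1 := ⟨le_rfl, zero_le_one⟩
  have := law_prob S hp hκ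
  have := bern_prob hp.1 hp.2
  have hb : BM fun ω : Om V => if ω.1 x then (1 : ℝ) else 0 := by
    refine ⟨(measurable_of_countable fun b : Bool => if b then (1 : ℝ) else 0).comp
      ((measurable_pi_apply x).comp measurable_fst), 1, fun ω => ?_⟩
    split_ifs <;> simp
  have e := (resamp_upe S hp hκ x).integral_mul (bm_pow h0 h1 (measurable_Nv pd T x)) hb
    (fun β => if β then 1 else 0) (fun ω β => ?_) (fun ω β => ?_)
  · rw [e, integral_bern hp.1 hp.2]
    simp
    ring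
  · have hag : Agree (Anc pd x) (upe x ω β) ω := by
      refine ⟨fun v hv => ?_, fun v _ t i => rfl, fun v _ t i => rfl⟩
      have : v ≠ x := fun e => h.noloop x (e ▸ hv)
      simp [upe, Function.update_of_ne this]
    have : Nv pd T x (upe x ω β) = Nv pd T x ω :=
      sum_congr rfl fun t _ => A_agree (anc_closed pd x) hag (nb_anc pd x) t
    rw [this]
  · simp [upe]

include h hp in
/-- the second half of the recursion -/
theorem RR_LL (x : V) (T : ℕ) {r : ℝ} (h0 : 0 < r) (h1 : r ≤ 1) :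
    RR S p x (T + 1) r = (p * r + (1 - p) * r⁻¹) * LL S p x T r - (r⁻¹ - 1) * fT S p 0 x T := by
  have hκ : (0 : ℝ) ≤ 0 ∧ (0 : ℝ) ≤ 1 := ⟨le_rfl, zero_le_one⟩
  have := law_prob S hp hκ
  rw [RR_eq h hp, LL_eq h hp]
  have hF : fT S p 0 x T = ∫ ω, (Fn pd T x ω : ℝ) ∂(S.law p 0) :=
    integral_congr_ae ((ae_legal h hp).mono fun ω hω => by
      dsimp only
      rw [legal_F h hω])
  have hb := bm_pow h0.le h1 (measurable_Nv pd T x)
  have hb2 : BM fun ω : Om V => if ω.1 x then (1 : ℝ) else 0 := by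
    refine ⟨(measurable_of_countable fun b : Bool => if b then (1 : ℝ) else 0).comp
      ((measurable_pi_apply x).comp measurable_fst), 1, fun ω => ?_⟩
    split_ifs <;> simp
  rw [hF]
  simp_rw [pow_dep h0.ne' pd T x]
  rw [integral_sub (((hb.smul _).add ((hb.mul hb2).smul _)).integrable _)
    (((bm_F pd T x).smul _).integrable _),
    integral_add ((hb.smul _).integrable _) (((hb.mul hb2).smul _).integrable _),
    integral_const_mul, integral_const_mul, integral_const_mul, initial_indep h hp x T h0.le h1]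
  ring

include h hp in
theorem fT_eq (x : V) (T : ℕ) : fT S p 0 x T = (1 - p) * LL S p x T 0 := by
  have hκ : (0 : ℝ) ≤ 0 ∧ (0 : ℝ) ≤ 1 := ⟨le_rfl, zero_le_one⟩
  have := law_prob S hp hκ
  have hF : fT S p 0 x T = ∫ ω, (Fn pd T x ω : ℝ) ∂(S.law p 0) :=
    integral_congr_ae ((ae_legal h hp).mono fun ω hω => by
      dsimp only
      rw [legal_F h hω])
  have hb := bm_pow le_rfl zero_le_one (measurable_Nv pd T x)
  have hb2 : BM fun ω : Om V => if ω.1 x then (1 : ℝ) else 0 := by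
    refine ⟨(measurable_of_countable fun b : Bool => if b then (1 : ℝ) else 0).comp
      ((measurable_pi_apply x).comp measurable_fst), 1, fun ω => ?_⟩
    split_ifs <;> simp
  rw [LL_eq h hp, hF]
  simp_rw [F_eq_pow pd T x]
  rw [integral_sub (hb.integrable _) ((hb.mul hb2).integrable _),
    initial_indep h hp x T le_rfl zero_le_one]
  ring

theorem LL_nonneg (x : V) (T : ℕ) {s : ℝ} (h0 : 0 ≤ s) : 0 ≤ LL S p x T s :=
  integral_nonneg fun _ => pow_nonneg h0 _

include hp in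
theorem LL_le_one (x : V) (T : ℕ) {s : ℝ} (h0 : 0 ≤ s) (h1 : s ≤ 1) : LL S p x T s ≤ 1 := by
  have := law_prob S hp (κ := 0) ⟨le_rfl, zero_le_one⟩
  have e : LL S p x T s ≤ ∫ _ω : Om V, (1 : ℝ) ∂(S.law p 0) :=
    integral_mono ((bm_pow h0 h1 (measurable_Nv S.nb T x)).integrable _) (integrable_const _)
      fun ω => pow_le_one₀ h0 h1
  simpa using e

theorem RR_nonneg (x : V) (T : ℕ) {s : ℝ} (h0 : 0 ≤ s) : 0 ≤ RR S p x T s :=
  integral_nonneg fun _ => pow_nonneg h0 _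

end J2

end Pool.Agent.J6H78.PK
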